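import Pool.Agent.J6H54.CG.Stm

/-!
# CG-14: class length of powers
-/

set_option autoImplicit false

namespace Pool.Agent.J6H74.CG14

open Pool.Agent.J6H54.CG Finset

/-- powers -/
def pw (k : ℕ) (g : Pt) : ℕ → Pt
  | 0 => (0, 0)
  | n + 1 => mul k (pw k g n) g

theorem geomB_add (k b q a d : ℕ) :
    geomB k b q (a + d) = geomB k b q a + k ^ (q * a) * geomB k b q d := by
  have h : ∑ x ∈ range d, k ^ (q * (a + x)) = k ^ (q * a) * ∑ i ∈ range d, k ^ (q * i) := by
    rw [Finset.mul_sum]
    apply Finset.sum_congr rfl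
    intro i _
    rw [Nat.mul_add, pow_add]
  unfold geomB
  rw [Finset.sum_range_add, h]
  ring

theorem geomB_lt {k b q : ℕ} (hb : b < k ^ q) (n : ℕ) : geomB k b q n < k ^ (q * n) := by
  induction n with
  | zero => simp [geomB]
  | succ n ih =>
    rw [geomB_add]
    have h1 : geomB k b q 1 = b := by simp [geomB]
    rw [h1]
    calc geomB k b q n + k ^ (q * n) * b < k ^ (q * n) + k ^ (q * n) * b := by omega
      _ = k ^ (q * n) * (b + 1) := by ring
      _ ≤ k ^ (q * n) * k ^ q := Nat.mul_le_mul le_rfl hb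
      _ = k ^ (q * (n + 1)) := by rw [← pow_add]; congr 1

theorem pw_geom (k : ℕ) (b q d : ℕ) (N : ℕ) :
    pw k ((geomB k b q d : ℚ), ((q * d : ℕ) : ℤ)) N =
      ((geomB k b q (d * N) : ℚ), ((q * (d * N) : ℕ) : ℤ)) := by
  induction N with
  | zero => simp [pw, geomB]
  | succ N ih =>
    rw [pw, ih]
    apply Prod.ext
    · rw [mul_fst]
      simp only
      rw [zpow_natCast, Nat.mul_succ, geomB_add]
      push_cast
      rfl
    · rw [mul_snd]
      simp only
      push_cast
      ring

theorem pw_conj {k : ℕ} (hk : 2 ≤ k) {c P g : Pt} (h : mul k c P = mul k g c) (N : ℕ) :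
    mul k c (pw k P N) = mul k (pw k g N) c := by
  induction N with
  | zero => simp only [pw]; rw [mul_one', one_mul']
  | succ N ih =>
    simp only [pw]
    rw [← mul_assoc' hk, ih, mul_assoc' hk, h, ← mul_assoc' hk]

theorem ka_pw {k : ℕ} (hk : 2 ≤ k) {g : Pt} (hg : KA k g.1) (N : ℕ) : KA k (pw k g N).1 := by
  induction N with
  | zero => exact ka_zero
  | succ N ih => exact ka_mul hk ih hg

theorem len_pw {k : ℕ} {T : Finset Pt} (hT : Gen k T) {g : Pt} (hg : KA k g.1) (N : ℕ) :
    len k T (pw k g N) ≤ N * len k T g := by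
  induction N with
  | zero => simp [pw, len_zero]
  | succ N ih =>
    have := len_mul hT (ka_pw hT.two_le hg N) hg
    simp only [pw]
    rw [Nat.succ_mul]
    omega

theorem key_pow {k : ℕ} {T : Finset Pt} {K : ℕ} (hK : Key k T K) {b q : ℕ} (hb : b < k ^ q)
    (n : ℕ) : n * len k T ((b : ℚ), (q : ℤ)) ≤
      len k T ((geomB k b q n : ℚ), ((q * n : ℕ) : ℤ)) + n * K := by
  induction n with
  | zero => simp
  | succ n ih =>
    have h := hK (q * n) q (geomB k b q n) b (geomB_lt hb n) hb
    have h1 : geomB k b q (n + 1) = geomB k b q n + k ^ (q * n) * b := by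
      rw [geomB_add]; simp [geomB]
    rw [← h1, show q * n + q = q * (n + 1) from rfl] at h
    rw [Nat.succ_mul, Nat.succ_mul]
    omega

theorem m14 : S_pow := by
  intro k T K hT hK b q d _ hb
  have hk := hT.two_le
  set P : Pt := ((geomB k b q d : ℚ), ((q * d : ℕ) : ℤ)) with hP
  have hne : {n | ∃ q : Pt, Cj k P q ∧ len k T q = n}.Nonempty :=
    ⟨_, P, ⟨(0, 0), ka_zero, by rw [mul_one', one_mul']⟩, rfl⟩
  obtain ⟨g, ⟨c, hc, hcg⟩, hlen⟩ := Nat.sInf_mem hne
  have hlen' : clen k T P = len k T g := hlen.symm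
  rw [hlen']
  have hPka : KA k P.1 := ka_nat _
  have hgka : KA k g.1 := by
    have h1 : g = mul k (mul k c P) (inv k c) := by
      rw [hcg, mul_assoc' hk, mul_inv' hk, mul_one']
    rw [h1]
    exact ka_mul hk (ka_mul hk hc hPka) (ka_inv hk hc)
  have main : ∀ N : ℕ, N * (d * len k T ((b : ℚ), (q : ℤ))) ≤
      2 * len k T c + N * (len k T g + d * K) := by
    intro N
    have h1 := key_pow hK hb (d * N)
    rw [← pw_geom, ← hP] at h1
    have h2 : pw k P N = mul k (inv k c) (mul k (pw k g N) c) := by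
      rw [← pw_conj hk hcg, ← mul_assoc' hk, inv_mul' hk, one_mul']
    have h3 : len k T (pw k P N) ≤ 2 * len k T c + N * len k T g := by
      rw [h2]
      have h4 := len_mul hT (ka_inv hk hc) (ka_mul hk (ka_pw hk hgka N) hc)
      have h5 := len_mul hT (ka_pw hk hgka N) hc
      have h6 := len_pw hT hgka N
      have h7 := len_inv hT hc
      omega
    calc N * (d * len k T ((b : ℚ), (q : ℤ))) = d * N * len k T ((b : ℚ), (q : ℤ)) := by ring
      _ ≤ len k T (pw k P N) + d * N * K := h1
      _ ≤ 2 * len k T c + N * len k T g + d * N * K := by omega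
      _ = 2 * len k T c + N * (len k T g + d * K) := by ring
  by_contra hcon
  push_neg at hcon
  have h1 := main (2 * len k T c + 1)
  have h2 : (2 * len k T c + 1) * (len k T g + d * K + 1) ≤
      (2 * len k T c + 1) * (d * len k T ((b : ℚ), (q : ℤ))) := Nat.mul_le_mul le_rfl hcon
  rw [Nat.mul_succ] at h2
  omega

end Pool.Agent.J6H74.CG14
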